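import Mathlib

/-!
# MP_d6b04a_al: minimal join-covers of compact elements in modular spatial lattices

In a complete, modular, spatial lattice every join-cover of a compact element is refined by a
minimal join-cover.
-/

namespace Pool.Agent.Results.MP_d6b04a_al.MinimalJoinCover

/-- `p` is a point (completely join-irreducible): `{x | x < p}` has a largest element. -/
def IsPoint {L : Type*} [Lattice L] (p : L) : Prop :=
  ∃ m : L, IsGreatest {x : L | x < p} m

/-- `p` is compact: whenever `D` is nonempty, directed, has a join `s` and `p ≤ s`, there is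
`d ∈ D` with `p ≤ d`. -/
def IsCompactElt {L : Type*} [Lattice L] (p : L) : Prop :=
  ∀ (D : Set L) (s : L), D.Nonempty → DirectedOn (· ≤ ·) D → IsLUB D s → p ≤ s → ∃ d ∈ D, p ≤ d

/-- `L` is spatial: every element is a join of points. -/
def Spatial (L : Type*) [Lattice L] : Prop :=
  ∀ x : L, ∃ S : Set L, (∀ q ∈ S, IsPoint q) ∧ IsLUB S x

/-- `X` refines `Y`. -/
def Refines {L : Type*} [Lattice L] (X Y : Finset L) : Prop :=
  ∀ x ∈ X, ∃ y ∈ Y, x ≤ y

/-- the finite set `E` is a join-cover of `p` -/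
def IsJoinCover {L : Type*} [Lattice L] [OrderBot L] (p : L) (E : Finset L) : Prop :=
  p ≤ E.sup id

/-- the join-cover `E` of `p` is minimal -/
def IsMinimalJoinCover {L : Type*} [Lattice L] [OrderBot L] (p : L) (E : Finset L) : Prop :=
  IsJoinCover p E ∧ ∀ X : Finset L, IsJoinCover p X → Refines X E → E ⊆ X

/-- a compact element below the join of a set is below the join of a finite subset -/
theorem IsCompactElt.finite {L : Type*} [CompleteLattice L] {p : L} (hp : IsCompactElt p)
    (S : Set L) (r : L) (h : p ≤ sSup S ⊔ r) :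
    ∃ F : Finset L, (F : Set L) ⊆ S ∧ p ≤ F.sup id ⊔ r := by
  classical
  let D : Set L := {y | ∃ F : Finset L, (F : Set L) ⊆ S ∧ y = F.sup id ⊔ r}
  have hD : IsLUB D (sSup S ⊔ r) := by
    constructor
    · rintro y ⟨F, hF, rfl⟩
      refine sup_le_sup_right ?_ r
      exact Finset.sup_le fun a ha => le_sSup (hF ha)
    · intro b hb
      refine sup_le (sSup_le fun a ha => ?_) ?_
      · refine le_trans ?_ (hb ⟨{a}, by simpa using ha, rfl⟩)
        simp
      · refine le_trans ?_ (hb ⟨∅, by simp, rfl⟩)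
        simp
  obtain ⟨d, ⟨F, hF, rfl⟩, hd⟩ := hp D (sSup S ⊔ r) ⟨_, ∅, by simp, rfl⟩ (by
    rintro x ⟨F, hF, rfl⟩ y ⟨G, hG, rfl⟩
    refine ⟨(F ∪ G).sup id ⊔ r, ⟨F ∪ G, by simp [hF, hG], rfl⟩, ?_, ?_⟩
    · exact sup_le_sup_right (Finset.sup_mono Finset.subset_union_left) r
    · exact sup_le_sup_right (Finset.sup_mono Finset.subset_union_right) r) hD h
  exact ⟨F, hF, hd⟩

/-- the one-step lemma -/
theorem one_step {L : Type*} [DecidableEq L] [CompleteLattice L] [IsModularLattice L]
    (hs : Spatial L) {p : L} (hp : IsCompactElt p) (e r : L) (h : p ≤ e ⊔ r) :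
    ∃ F : Finset L, (∀ q ∈ F, IsPoint q ∧ q ≤ e) ∧ p ≤ F.sup id ⊔ r ∧
      ∀ q ∈ F, ∀ x < q, ¬ p ≤ x ⊔ (F.erase q).sup id ⊔ r := by
  classical
  -- replace `e` by `e ⊓ (p ⊔ r)`
  set e' : L := e ⊓ (p ⊔ r) with he'
  have h1 : e' ⊔ r = p ⊔ r := by
    apply le_antisymm
    · exact sup_le inf_le_right le_sup_right
    · have : (e ⊔ r) ⊓ (p ⊔ r) ≤ e' ⊔ r := by
        rw [he', sup_comm e r, sup_comm (e ⊓ (p ⊔ r)) r]
        rw [sup_inf_assoc_of_le e (le_sup_right : r ≤ p ⊔ r)]
      exact le_trans (le_inf (sup_le h le_sup_right) le_rfl) this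
  obtain ⟨S, hS, hlub⟩ := hs e'
  have hS' : sSup S = e' := hlub.sSup_eq
  -- choose a finite set of points of least cardinality
  let Q : ℕ → Prop := fun n => ∃ F : Finset L, (F : Set L) ⊆ S ∧ p ≤ F.sup id ⊔ r ∧ F.card = n
  have hQ : ∃ n, Q n := by
    obtain ⟨F, hF, hF'⟩ := hp.finite S r (by rw [hS', h1]; exact le_sup_left)
    exact ⟨F.card, F, hF, hF', rfl⟩
  obtain ⟨F, hF, hpF, hcard⟩ := Nat.find_spec hQ
  refine ⟨F, ?_, hpF, ?_⟩
  · intro q hq
    exact ⟨hS q (hF hq), le_trans (hlub.1 (hF hq)) inf_le_left⟩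
  · intro q hq x hx hpx
    -- `q ≤ t := (F.erase q).sup id ⊔ r`
    set t : L := (F.erase q).sup id ⊔ r with ht
    have hqd : q ≤ x ⊔ t := by
      have a1 : q ≤ p ⊔ r := le_trans (hlub.1 (hF hq)) inf_le_right
      refine le_trans a1 (sup_le ?_ ?_)
      · rw [ht, ← sup_assoc]
        exact hpx
      · exact le_trans le_sup_right (le_sup_right : t ≤ x ⊔ t)
    have hqt : q ≤ t := by
      have a2 : x ⊔ (t ⊓ q) = (x ⊔ t) ⊓ q := sup_inf_assoc_of_le t hx.le |>.symm
      have a3 : x ⊔ (t ⊓ q) = q := by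
        rw [a2]
        exact inf_eq_right.mpr hqd
      obtain ⟨m, hm1, hm2⟩ := hS q (hF hq)
      by_contra hnot
      have a4 : t ⊓ q < q := lt_of_le_of_ne inf_le_right (fun h => hnot (inf_eq_right.mp h))
      have a5 : x ⊔ (t ⊓ q) ≤ m := sup_le (hm2 hx) (hm2 a4)
      rw [a3] at a5
      exact absurd hm1 (not_lt_of_ge a5)
    have hlt : (F.erase q).card < F.card := Finset.card_erase_lt_of_mem hq
    refine Nat.find_min hQ (m := (F.erase q).card) (hcard ▸ hlt) ⟨F.erase q, ?_, ?_, rfl⟩
    · exact fun a ha => hF (Finset.mem_of_mem_erase ha)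
    · refine le_trans hpF (sup_le ?_ le_sup_right)
      refine Finset.sup_le fun a ha => ?_
      by_cases haq : a = q
      · rw [haq]
        exact hqt
      · exact le_trans (Finset.le_sup (f := id) (Finset.mem_erase.mpr ⟨haq, ha⟩)) le_sup_left

theorem main {L : Type*} [DecidableEq L] [CompleteLattice L] [IsModularLattice L]
    (hs : Spatial L) {p : L} (hp : IsCompactElt p) (E : Finset L) :
    ∀ r : L, p ≤ E.sup id ⊔ r → ∃ F : Finset L, (∀ q ∈ F, IsPoint q) ∧ Refines F E ∧
      p ≤ F.sup id ⊔ r ∧ ∀ q ∈ F, ∀ x < q, ¬ p ≤ x ⊔ (F.erase q).sup id ⊔ r := by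
  induction E using Finset.induction_on with
  | empty =>
    intro r hr
    exact ⟨∅, by intro x hx; simp at hx, by intro x hx; simp at hx, hr,
      by intro q hq; simp at hq⟩
  | insert e E' _ ih =>
    intro r hr
    rw [Finset.sup_insert, id, sup_assoc] at hr
    obtain ⟨F1, hF1, hp1, hm1⟩ := one_step hs hp e (E'.sup id ⊔ r) hr
    obtain ⟨F2, hF2', hF2, hp2, hm2⟩ := ih (F1.sup id ⊔ r) (by
      rw [← sup_assoc, sup_comm (E'.sup id), sup_assoc]
      exact hp1)
    have hE : ∀ q : L, (F2.erase q).sup id ≤ E'.sup id := by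
      intro q
      refine Finset.sup_le fun a ha => ?_
      obtain ⟨y, hy, hay⟩ := hF2 a (Finset.mem_of_mem_erase ha)
      exact le_trans hay (Finset.le_sup (f := id) hy)
    refine ⟨F1 ∪ F2, ?_, ?_, ?_, ?_⟩
    · intro x hx
      rcases Finset.mem_union.mp hx with hx | hx
      · exact (hF1 x hx).1
      · exact hF2' x hx
    · intro x hx
      rcases Finset.mem_union.mp hx with hx | hx
      · exact ⟨e, Finset.mem_insert_self _ _, (hF1 x hx).2⟩
      · obtain ⟨y, hy, hxy⟩ := hF2 x hx
        exact ⟨y, Finset.mem_insert_of_mem hy, hxy⟩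
    · rw [Finset.sup_union, sup_comm (F1.sup id), sup_assoc]
      exact hp2
    · intro q hq x hx hpx
      rcases Finset.mem_union.mp hq with hq | hq
      · apply hm1 q hq x hx
        refine le_trans hpx (sup_le (sup_le ?_ ?_) ?_)
        · exact le_trans le_sup_left le_sup_left
        · rw [Finset.erase_union_distrib, Finset.sup_union]
          refine sup_le ?_ ?_
          · exact le_trans le_sup_right le_sup_left
          · exact le_trans (hE q) (le_trans le_sup_left le_sup_right)
        · exact le_trans le_sup_right le_sup_right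
      · apply hm2 q hq x hx
        refine le_trans hpx (sup_le (sup_le ?_ ?_) ?_)
        · exact le_trans le_sup_left le_sup_left
        · rw [Finset.erase_union_distrib, Finset.sup_union]
          refine sup_le ?_ ?_
          · refine le_trans ?_ (le_trans le_sup_left le_sup_right)
            exact Finset.sup_mono (Finset.erase_subset _ _)
          · exact le_trans le_sup_right le_sup_left
        · exact le_trans le_sup_right le_sup_right

/-- In a complete modular spatial lattice (in particular in every algebraic modular spatial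
lattice), every join-cover `E` of a compact element `p` admits a minimal join-cover `F` of `p`
that refines `E`. -/
theorem result (L : Type*) [CompleteLattice L] [IsModularLattice L] (hs : Spatial L)
    (p : L) (hp : IsCompactElt p) (E : Finset L) (hE : IsJoinCover p E) :
    ∃ F : Finset L, IsMinimalJoinCover p F ∧ Refines F E := by
  classical
  obtain ⟨F, hF', hF, hpF, hm⟩ := main hs hp E ⊥ (by rw [sup_bot_eq]; exact hE)
  rw [sup_bot_eq] at hpF
  refine ⟨F, ⟨hpF, ?_⟩, hF⟩
  intro X hpX hX q hq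
  by_contra hqX
  obtain ⟨m, hm1, hm2⟩ := hF' q hq
  refine hm q hq m hm1 (le_trans hpX (le_trans (Finset.sup_le fun x hx => ?_) le_sup_left))
  obtain ⟨f, hf, hxf⟩ := hX x hx
  by_cases hfq : f = q
  · subst hfq
    have hlt : x < f := lt_of_le_of_ne hxf (fun h => hqX (h ▸ hx))
    exact le_trans (hm2 hlt) le_sup_left
  · exact le_trans hxf
      (le_trans (Finset.le_sup (f := id) (Finset.mem_erase.mpr ⟨hfq, hf⟩)) le_sup_right)

end Pool.Agent.Results.MP_d6b04a_al.MinimalJoinCover
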